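import Pool.Agent.helper34.DT.Spec

set_option autoImplicit false

namespace Pool.Agent.HC.DT

open Pool.Agent.HC

/-- the module AD -/
theorem AD : AD_stmt := by
  intro W _ _ Lam X hX k n η hη v hv
  have key : ∀ j, ∃ q : ℚ, η (Function.update v j (powMap k (X : W →ₗ[ℝ] W) (v j))) = q := by
    intro j
    have h1 : ∀ c : Fin k, ∃ m : ℕ, m ≠ 0 ∧ m • X (v j c) ∈ Lam := fun c => hX _ (hv j c)
    choose m hm0 hm using h1
    have hN : (∏ c, m c) ≠ 0 := Finset.prod_ne_zero_iff.2 fun c _ => hm0 c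
    have h2 : (∏ c, m c) • powMap k (X : W →ₗ[ℝ] W) (v j) ∈ powLat k Lam := by
      intro c
      show (∏ c, m c) • X (v j c) ∈ Lam
      rw [← Finset.mul_prod_erase Finset.univ m (Finset.mem_univ c), mul_comm, mul_smul]
      exact Lam.nsmul_mem (hm c) _
    obtain ⟨q, hq⟩ := hη (Function.update v j ((∏ c, m c) • powMap k (X : W →ₗ[ℝ] W) (v j)))
      (by
        intro i
        by_cases hi : i = j
        · subst hi
          rw [Function.update_self]
          exact h2
        · rw [Function.update_of_ne hi]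
          exact hv i)
    refine ⟨q / ((∏ c, m c : ℕ) : ℚ), ?_⟩
    rw [← Nat.cast_smul_eq_nsmul ℝ, AlternatingMap.map_update_smul, smul_eq_mul] at hq
    have hN' : ((∏ c, m c : ℕ) : ℝ) ≠ 0 := Nat.cast_ne_zero.2 hN
    rw [Rat.cast_div, ← hq, Rat.cast_natCast]
    field_simp
  choose q hq using key
  refine ⟨∑ j, q j, ?_⟩
  rw [der_apply, Rat.cast_sum]
  exact Finset.sum_congr rfl fun j _ => hq j

end Pool.Agent.HC.DT
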